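import Mathlib
import Pool.Agent.V1148.Saito

set_option autoImplicit false

/-!
# The Saito type recognition of SPOG arrangements holds in every dimension
-/

namespace Pool.Agent.Results.MP_eea557_ag.Recognition

open MvPolynomial Pool.Agent.V1148

variable {K : Type*} [Field K] {l n m : ℕ}

/-- `g_1, …, g_{l+1}` are the quotients `(-1)^i det M_i = g_i Q` (with `i = 1, …, l+1`), where
`M_i` is the matrix `(θ_k(x_j))` with row `i` deleted. -/
def AreQuotients (A : Fin n → Fin l → K)
    (θ : Fin (l + 1) → Derivation K (MvPolynomial (Fin l) K) (MvPolynomial (Fin l) K))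
    (g : Fin (l + 1) → MvPolynomial (Fin l) K) : Prop :=
  ∀ i : Fin (l + 1), (-1) ^ (i.val + 1) * (coefMatrix fun k : Fin l => θ (i.succAbove k)).det =
    g i * defPoly A

/-- The set `S_{>0}`: homogeneous polynomials of positive degree (and zero). -/
def InPos (f : MvPolynomial (Fin l) K) : Prop := ∃ d, 0 < d ∧ f.IsHomogeneous d

/-- The polynomials `f_i` have a non-trivial common divisor modulo `α`. -/
def HasCommonDivisorMod (f : Fin m → MvPolynomial (Fin l) K) (α : MvPolynomial (Fin l) K) :
    Prop :=
  ∃ h, InPos h ∧ ∀ i, f i ∈ Ideal.span {h, α}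

/-- A relation among the `θ_i` of minimal degree: the coefficients have no nonconstant common
divisor. -/
def IsMinimalDegreeRelation
    (θ : Fin m → Derivation K (MvPolynomial (Fin l) K) (MvPolynomial (Fin l) K))
    (f : Fin m → MvPolynomial (Fin l) K) : Prop :=
  ∑ i, f i • θ i = 0 ∧ ∀ h, (∀ i, h ∣ f i) → IsUnit h

/-- Statement (i): `A` is SPOG, the `θ_i` form a minimal generating set of `D(A)`, their
unique relation of minimal degree is `∑ g_i θ_i = 0`, and the coefficient of the last generator is
a nonzero linear form. -/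
def StatementI (A : Fin n → Fin l → K)
    (θ : Fin (l + 1) → Derivation K (MvPolynomial (Fin l) K) (MvPolynomial (Fin l) K))
    (g : Fin (l + 1) → MvPolynomial (Fin l) K) : Prop :=
  (∃ (d : Fin l → ℕ) (e : ℕ), IsStrictlyPOG A d e) ∧
  Submodule.span (MvPolynomial (Fin l) K) (Set.range θ) = logDer A ∧
  (∀ i, θ i ∉ Submodule.span (MvPolynomial (Fin l) K) (θ '' {i}ᶜ)) ∧
  IsMinimalDegreeRelation θ g ∧
  (∀ f, IsMinimalDegreeRelation θ f → ∃ c : K, c ≠ 0 ∧ ∀ i, f i = C c * g i) ∧
  (g (Fin.last l)).IsHomogeneous 1 ∧ g (Fin.last l) ≠ 0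

/-- Statement (ii): the last `g` is a nonzero linear form, the others are in `S_{>0}` and have no
non-trivial common divisor modulo the last one. -/
def StatementII (g : Fin (l + 1) → MvPolynomial (Fin l) K) : Prop :=
  ((g (Fin.last l)).IsHomogeneous 1 ∧ g (Fin.last l) ≠ 0) ∧
  (∀ i : Fin l, InPos (g i.castSucc)) ∧
  ¬ HasCommonDivisorMod (fun i : Fin l => g i.castSucc) (g (Fin.last l))

theorem InPos.constantCoeff {f : MvPolynomial (Fin l) K} (h : InPos f) : constantCoeff f = 0 := by
  obtain ⟨d, hd, hf⟩ := h
  rw [constantCoeff_eq]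
  apply hf.coeff_eq_zero
  simp only [map_zero]
  omega

theorem linear_eq_lin {F : MvPolynomial (Fin l) K} (h : F.IsHomogeneous 1) :
    ∃ a : Fin l → K, F = lin a := by
  have h1 : F ∈ homogeneousSubmodule (Fin l) K 1 := h
  rw [homogeneousSubmodule_one_eq_span_X, Submodule.mem_span_range_iff_exists_fun] at h1
  obtain ⟨c, hc⟩ := h1
  refine ⟨c, ?_⟩
  rw [← hc]
  simp [lin, MvPolynomial.smul_eq_C_mul]

theorem relation {A : Fin n → Fin l → K} (hA : IsArrangement A)
    {θ : Fin (l + 1) → Derivation K (MvPolynomial (Fin l) K) (MvPolynomial (Fin l) K)}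
    {g : Fin (l + 1) → MvPolynomial (Fin l) K} (hg : AreQuotients A θ g) :
    ∑ i, g i • θ i = 0 := by
  apply der_ext'
  intro j
  rw [sum_der_apply, Derivation.zero_apply]
  apply mul_right_cancel₀ (defPoly_ne_zero hA)
  rw [zero_mul, Finset.sum_mul]
  let N : Matrix (Fin (l + 1)) (Fin (l + 1)) (MvPolynomial (Fin l) K) :=
    Matrix.of fun i => Fin.cons (θ i (X j)) (fun k => θ i (X k))
  have hN : N.det = 0 := by
    apply Matrix.det_zero_of_column_eq (i := 0) (j := j.succ) (Fin.succ_ne_zero j).symm
    intro k
    simp [N]
  rw [Matrix.det_succ_column_zero] at hN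
  rw [← neg_eq_zero, ← hN, ← Finset.sum_neg_distrib]
  apply Finset.sum_congr rfl
  intro i _
  have h1 := hg i
  have h2 : N.submatrix i.succAbove Fin.succ = coefMatrix fun k : Fin l => θ (i.succAbove k) := by
    ext k k'
    simp [N, coefMatrix]
  have h3 : N i 0 = θ i (X j) := by simp [N]
  rw [h2, h3]
  rw [pow_succ] at h1
  linear_combination (θ i (X j)) * h1

theorem mem_span_others
    {θ : Fin m → Derivation K (MvPolynomial (Fin l) K) (MvPolynomial (Fin l) K)}
    {b : Fin m → MvPolynomial (Fin l) K} (h : ∑ i, b i • θ i = 0) {i : Fin m}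
    (hi : IsUnit (b i)) : θ i ∈ Submodule.span (MvPolynomial (Fin l) K) (θ '' {i}ᶜ) := by
  obtain ⟨u, hu⟩ := hi
  have h1 : b i • θ i ∈ Submodule.span (MvPolynomial (Fin l) K) (θ '' {i}ᶜ) := by
    have h2 : b i • θ i = -∑ j ∈ Finset.univ.erase i, b j • θ j := by
      rw [← Finset.add_sum_erase _ _ (Finset.mem_univ i)] at h
      exact eq_neg_of_add_eq_zero_left h
    rw [h2]
    apply Submodule.neg_mem
    apply Submodule.sum_mem
    intro j hj
    apply Submodule.smul_mem
    apply Submodule.subset_span
    exact ⟨j, by simpa using Finset.ne_of_mem_erase hj, rfl⟩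
  have h3 : θ i = (↑u⁻¹ : MvPolynomial (Fin l) K) • (b i • θ i) := by
    rw [smul_smul, ← hu, Units.inv_mul, one_smul]
  rw [h3]
  exact Submodule.smul_mem _ _ h1

theorem exists_of_mem_span_others
    {θ : Fin m → Derivation K (MvPolynomial (Fin l) K) (MvPolynomial (Fin l) K)} {i : Fin m}
    (h : θ i ∈ Submodule.span (MvPolynomial (Fin l) K) (θ '' {i}ᶜ)) :
    ∃ b : Fin m → MvPolynomial (Fin l) K, ∑ j, b j • θ j = 0 ∧ b i = -1 := by
  rw [Finsupp.mem_span_image_iff_linearCombination] at h
  obtain ⟨c, hc, hc2⟩ := h
  have hci : c i = 0 := by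
    by_contra hne
    have h1 : i ∈ c.support := Finsupp.mem_support_iff.2 hne
    have h2 := hc h1
    simp at h2
  refine ⟨fun j => c j - if j = i then 1 else 0, ?_, ?_⟩
  · rw [Finsupp.linearCombination_apply] at hc2
    have hc3 := Finsupp.sum_fintype c (fun i a => a • θ i) (fun j => zero_smul _ _)
    rw [hc3] at hc2
    have h3 : ∑ j, (c j - if j = i then 1 else 0) • θ j =
        ∑ j, c j • θ j - ∑ j, (if j = i then (1 : MvPolynomial (Fin l) K) else 0) • θ j := by
      rw [← Finset.sum_sub_distrib]
      apply Finset.sum_congr rfl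
      intro j _
      exact (der_sub_smul _ _ _).symm
    rw [h3, hc2]
    simp
  · simp [hci]

theorem graded_relation
    {θ : Fin m → Derivation K (MvPolynomial (Fin l) K) (MvPolynomial (Fin l) K)} {d : Fin m → ℕ}
    (hd : ∀ i, IsHomogDer (θ i) (d i)) {b : Fin m → MvPolynomial (Fin l) K}
    (h : ∑ i, b i • θ i = 0) (q : ℕ) :
    ∑ i, (if d i ≤ q then homogeneousComponent (q - d i) (b i) else 0) • θ i = 0 := by
  apply der_ext'
  intro j
  rw [sum_der_apply, Derivation.zero_apply]
  have h1 := congrArg (fun D : Derivation K (MvPolynomial (Fin l) K)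
    (MvPolynomial (Fin l) K) => homogeneousComponent q (D (X j))) h
  simp only [sum_der_apply, Derivation.zero_apply, map_sum, map_zero] at h1
  refine Eq.trans ?_ h1
  apply Finset.sum_congr rfl
  intro i _
  rw [homogeneousComponent_mul_right (hd i j)]
  split_ifs
  · rfl
  · rw [zero_mul]

/-- The quotient `g_i` is homogeneous of the expected degree. -/
theorem quotient_homog {A : Fin n → Fin l → K} (hA : IsArrangement A)
    {θ : Fin (l + 1) → Derivation K (MvPolynomial (Fin l) K) (MvPolynomial (Fin l) K)}
    {d : Fin (l + 1) → ℕ} (hd : ∀ i, IsHomogDer (θ i) (d i))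
    {g : Fin (l + 1) → MvPolynomial (Fin l) K} (hg : AreQuotients A θ g)
    (h1 : (g (Fin.last l)).IsHomogeneous 1) (h0 : g (Fin.last l) ≠ 0) (i : Fin (l + 1)) :
    (g i).IsHomogeneous (d (Fin.last l) + 1 - d i) ∧ (d (Fin.last l) + 1 < d i → g i = 0) := by
  have hQ := defPoly_ne_zero hA
  have key : ∀ i, (g i * defPoly A).IsHomogeneous (∑ k, d (i.succAbove k)) := by
    intro i
    rw [← hg i]
    have h2 : ((-1 : MvPolynomial (Fin l) K) ^ (i.val + 1)) = C ((-1 : K) ^ (i.val + 1)) := by
      simp
    rw [h2]
    exact (det_isHomogeneous fun k j => hd (i.succAbove k) j).C_mul _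
  have hlast : ∑ k, d ((Fin.last l).succAbove k) = 1 + n := by
    have h3 := h1.mul (defPoly_isHomogeneous A)
    exact (key (Fin.last l)).inj_right h3 (mul_ne_zero h0 hQ)
  have hsum1 := Fin.sum_univ_succAbove d (Fin.last l)
  have hsum2 := Fin.sum_univ_succAbove d i
  have hdeg : d i + ∑ k, d (i.succAbove k) = d (Fin.last l) + (1 + n) := by omega
  have hk := key i
  by_cases hle : n ≤ ∑ k, d (i.succAbove k)
  · have h4 := isHomogeneous_of_mul_right (defPoly_isHomogeneous A) hQ hk hle
    refine ⟨?_, fun hlt => ?_⟩
    · have : d (Fin.last l) + 1 - d i = ∑ k, d (i.succAbove k) - n := by omega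
      rw [this]
      exact h4
    · omega
  · have h4 : g i = 0 := eq_zero_of_mul_right (defPoly_isHomogeneous A) hQ hk (by omega)
    exact ⟨h4 ▸ isHomogeneous_zero _ _ _, fun _ => h4⟩

theorem res_res (a : Fin l → K) {p : Fin l} (hp : a p ≠ 0) (F : MvPolynomial (Fin l) K) :
    res a p (res a p F) = res a p F := by
  have h := (lin_dvd_iff hp _).1 (dvd_sub_res a p F)
  rw [map_sub, sub_eq_zero] at h
  exact h.symm

theorem res_homog (a : Fin l → K) (p : Fin l) {F : MvPolynomial (Fin l) K} {k : ℕ}
    (h : F.IsHomogeneous k) : (res a p F).IsHomogeneous k := by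
  have := h.aeval (R := K) (S := K) (fun j => if j = p then X p - C ((a p)⁻¹) * lin a else X j)
    (n := 1) (by
    intro i
    split_ifs
    · exact (isHomogeneous_X K p).sub ((lin_isHomogeneous a).C_mul _)
    · exact isHomogeneous_X K i)
  rw [one_mul] at this
  exact this

theorem cramer_row {R : Type*} [CommRing R] (M : Matrix (Fin l) (Fin l) R) (u : Fin l → R)
    (j : Fin l) : M.det * u j = ∑ k, (M.updateRow k u).det * M k j := by
  have h := congrFun (Matrix.mulVec_cramer M.transpose u) j
  rw [Matrix.det_transpose] at h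
  rw [Pi.smul_apply, smul_eq_mul] at h
  rw [← h]
  simp only [Matrix.mulVec, dotProduct, Matrix.cramer_transpose_apply, Matrix.transpose_apply]
  apply Finset.sum_congr rfl
  intro k _
  ring

section forward

variable {A : Fin n → Fin l → K} (hA : IsArrangement A)
  {θ : Fin (l + 1) → Derivation K (MvPolynomial (Fin l) K) (MvPolynomial (Fin l) K)}
  (hθ : ∀ i, θ i ∈ logDer A) {g : Fin (l + 1) → MvPolynomial (Fin l) K}
  (hg : AreQuotients A θ g) (hII : StatementII g)

include hA hg in
theorem rel_last (j : Fin l) : g (Fin.last l) * θ (Fin.last l) (X j) =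
    ∑ k : Fin l, -g k.castSucc * θ k.castSucc (X j) := by
  have h := relation hA hg
  have h1 := congrArg (fun D : Derivation K (MvPolynomial (Fin l) K)
    (MvPolynomial (Fin l) K) => D (X j)) h
  simp only [sum_der_apply, Derivation.zero_apply] at h1
  rw [Fin.sum_univ_castSucc] at h1
  simp only [neg_mul, Finset.sum_neg_distrib]
  linear_combination h1

include hg in
theorem det_M0 : (coefMatrix fun k : Fin l => θ k.castSucc).det =
    (-1) ^ (l + 1) * (g (Fin.last l) * defPoly A) := by
  have h := hg (Fin.last l)
  simp only [Fin.succAbove_last, Fin.val_last] at h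
  rw [← h, ← mul_assoc, ← mul_pow]
  simp

include hII in
theorem common_prime {a : Fin l → K} (ha : g (Fin.last l) = lin a) {p : Fin l} (hp : a p ≠ 0)
    (P : MvPolynomial (Fin l) K) (hP : Prime P) : ∃ j : Fin l, ¬ P ∣ res a p (g j.castSucc) := by
  by_contra hcon
  push Not at hcon
  apply hII.2.2
  refine ⟨homogeneousComponent P.totalDegree P, ⟨P.totalDegree, ?_,
    homogeneousComponent_isHomogeneous _ _⟩, ?_⟩
  · rw [Nat.pos_iff_ne_zero]
    intro h0
    rw [totalDegree_eq_zero_iff_eq_C] at h0
    apply hP.not_isUnit
    rw [h0]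
    apply IsUnit.map
    rw [isUnit_iff_ne_zero]
    intro h1
    rw [h1, C_0] at h0
    exact hP.ne_zero h0
  · intro j
    obtain ⟨k, _, hk⟩ := hII.2.1 j
    have h1 := top_dvd (res_homog a p hk) (hcon j)
    have h2 := dvd_sub_res a p (g j.castSucc)
    have h3 : g j.castSucc = res a p (g j.castSucc) + (g j.castSucc - res a p (g j.castSucc)) := by
      ring
    change g j.castSucc ∈ _
    rw [h3]
    apply Ideal.add_mem
    · exact Ideal.mem_of_dvd _ h1 (Ideal.subset_span (by simp))
    · rw [ha]
      exact Ideal.mem_of_dvd _ h2 (Ideal.subset_span (by simp))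

include hA hθ hg hII in
theorem span_of_II (η : Derivation K (MvPolynomial (Fin l) K) (MvPolynomial (Fin l) K))
    (hη : η ∈ logDer A) :
    η ∈ Submodule.span (MvPolynomial (Fin l) K) (Set.range θ) := by
  obtain ⟨⟨hα1, hα0⟩, hpos, hno⟩ := id hII
  obtain ⟨a, ha⟩ := linear_eq_lin hα1
  have ha0 : a ≠ 0 := by
    rintro rfl
    apply hα0
    rw [ha, lin_eq_zero_iff]
  obtain ⟨p, hp⟩ := Function.ne_iff.1 ha0
  have hp' : a p ≠ 0 := hp
  have hQ := defPoly_ne_zero hA
  set α := g (Fin.last l) with hα
  set M := coefMatrix fun k : Fin l => θ k.castSucc with hM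
  let u : Fin l → MvPolynomial (Fin l) K := fun j => η (X j)
  let v : Fin l → MvPolynomial (Fin l) K := fun j => θ (Fin.last l) (X j)
  have hu : ∀ i, ∃ c, (M.updateRow i u).det = defPoly A * c := by
    intro i
    have h1 : M.updateRow i u = coefMatrix (Function.update (fun k : Fin l => θ k.castSucc) i η) := by
      ext k j
      by_cases hk : k = i
      · subst hk
        simp [coefMatrix, u]
      · rw [Matrix.updateRow_ne hk]
        simp [coefMatrix, hM, Function.update_of_ne hk]
    rw [h1]
    apply defPoly_dvd_det hA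
    intro k
    by_cases hk : k = i
    · subst hk
      rw [Function.update_self]
      exact hη
    · rw [Function.update_of_ne hk]
      exact hθ _
  have huv : ∀ i j, i ≠ j → ∃ c, ((M.updateRow i u).updateRow j v).det = defPoly A * c := by
    intro i j hij
    have h1 : (M.updateRow i u).updateRow j v = coefMatrix (Function.update
        (Function.update (fun k : Fin l => θ k.castSucc) i η) j (θ (Fin.last l))) := by
      ext k j'
      by_cases hk : k = j
      · subst hk
        simp [coefMatrix, v]
      · rw [Matrix.updateRow_ne hk]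
        by_cases hk2 : k = i
        · subst hk2
          rw [Matrix.updateRow_self]
          simp [coefMatrix, Function.update_of_ne hk, u]
        · rw [Matrix.updateRow_ne hk2]
          simp [coefMatrix, hM, Function.update_of_ne hk, Function.update_of_ne hk2]
    rw [h1]
    apply defPoly_dvd_det hA
    intro k
    by_cases hk : k = j
    · subst hk
      rw [Function.update_self]
      exact hθ _
    · rw [Function.update_of_ne hk]
      by_cases hk2 : k = i
      · subst hk2
        rw [Function.update_self]
        exact hη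
      · rw [Function.update_of_ne hk2]
        exact hθ _
  choose c hc using hu
  have hident : ∀ i j, ∃ w, α * w = g i.castSucc * c j - g j.castSucc * c i := by
    intro i j
    by_cases hij : i = j
    · subst hij
      exact ⟨0, by ring⟩
    obtain ⟨w, hw⟩ := huv i j hij
    refine ⟨w, ?_⟩
    have h1 := det_update_update M u v α (fun k => -g k.castSucc) (by
      funext j'
      have h2 := rel_last hA hg j'
      simp only [Pi.smul_apply, smul_eq_mul, Finset.sum_apply]
      exact h2) hij
    rw [hw, hc i, hc j] at h1
    apply mul_left_cancel₀ hQ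
    linear_combination h1
  set r := res a p with hr
  have hrα : r α = 0 := by
    rw [ha]
    exact (lin_dvd_iff hp' _).1 dvd_rfl
  have hprop : ∀ i j, r (g i.castSucc) * r (c j) = r (g j.castSucc) * r (c i) := by
    intro i j
    obtain ⟨w, hw⟩ := hident i j
    have h1 := congrArg r hw
    rw [map_mul, hrα, zero_mul, map_sub, map_mul, map_mul] at h1
    exact (sub_eq_zero.1 h1.symm)
  have hprime := common_prime hII (by rw [← hα]; exact ha) hp'
  obtain ⟨i0, hi0⟩ := hprime (lin a) (lin_prime ha0)
  have hi0' : r (g i0.castSucc) ≠ 0 := by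
    intro h
    apply hi0
    rw [← hr, h]
    exact dvd_zero _
  obtain ⟨μ, hμ⟩ := dvd_of_forall_dvd_mul (fun j : Fin l => r (g j.castSucc)) hprime
    (r (g i0.castSucc)) hi0' (r (c i0)) (fun j => ⟨r (c j), (hprop i0 j).symm⟩)
  have hcj : ∀ j, r (c j) = μ * r (g j.castSucc) := by
    intro j
    apply mul_left_cancel₀ hi0'
    rw [hprop i0 j, hμ]
    ring
  have he : ∀ j, ∃ e, c j = μ * g j.castSucc + α * e := by
    intro j
    have h1 : r (c j - μ * g j.castSucc) = 0 := by
      have h2 := congrArg r (hcj j)
      rw [map_mul, res_res a hp', res_res a hp'] at h2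
      rw [map_sub, map_mul, h2, sub_self]
    have h3 := (lin_dvd_iff hp' _).2 h1
    obtain ⟨e, he⟩ := h3
    refine ⟨e, ?_⟩
    rw [ha]
    linear_combination he
  choose e he using he
  have hfin : η = (-1 : MvPolynomial (Fin l) K) ^ (l + 1) •
      ((∑ k : Fin l, e k • θ k.castSucc) - μ • θ (Fin.last l)) := by
    apply der_ext'
    intro j
    have hdet := det_M0 hg
    rw [← hM, ← hα] at hdet
    have h1 := cramer_row M u j
    rw [hdet] at h1
    simp only [hc, he] at h1
    have h2 := rel_last hA hg j
    rw [← hα] at h2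
    have h3 : (∑ k : Fin l, defPoly A * (μ * g k.castSucc + α * e k) * M k j) =
        defPoly A * (-μ * (α * θ (Fin.last l) (X j)) +
          α * ∑ k : Fin l, e k * θ k.castSucc (X j)) := by
      rw [h2, Finset.mul_sum, Finset.mul_sum, ← Finset.sum_add_distrib, Finset.mul_sum]
      apply Finset.sum_congr rfl
      intro k _
      have : M k j = θ k.castSucc (X j) := rfl
      rw [this]
      ring
    rw [h3] at h1
    have hsq : ((-1 : MvPolynomial (Fin l) K) ^ (l + 1)) * (-1) ^ (l + 1) = 1 := by
      rw [← mul_pow]
      simp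
    have h4 : ((-1 : MvPolynomial (Fin l) K) ^ (l + 1) •
      ((∑ k : Fin l, e k • θ k.castSucc) - μ • θ (Fin.last l))) (X j) =
        (-1) ^ (l + 1) * ((∑ k : Fin l, e k * θ k.castSucc (X j)) - μ * θ (Fin.last l) (X j)) := by
      rw [Derivation.smul_apply, Derivation.sub_apply, sum_der_apply, Derivation.smul_apply]
      rfl
    rw [h4]
    apply mul_left_cancel₀ (mul_ne_zero hQ hα0)
    have hu' : u j = η (X j) := rfl
    rw [hu'] at h1
    linear_combination (-1) ^ (l + 1) * h1 - defPoly A * α * η (X j) * hsq
  rw [hfin]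
  apply Submodule.smul_mem
  apply Submodule.sub_mem
  · apply Submodule.sum_mem
    intro k _
    exact Submodule.smul_mem _ _ (Submodule.subset_span ⟨_, rfl⟩)
  · exact Submodule.smul_mem _ _ (Submodule.subset_span ⟨_, rfl⟩)

include hA hg hII in
theorem relations_of_II (f : Fin (l + 1) → MvPolynomial (Fin l) K) (hf : ∑ i, f i • θ i = 0) :
    ∃ s, ∀ i, f i = s * g i := by
  obtain ⟨⟨hα1, hα0⟩, hpos, hno⟩ := id hII
  obtain ⟨a, ha⟩ := linear_eq_lin hα1
  have ha0 : a ≠ 0 := by
    rintro rfl
    apply hα0
    rw [ha, lin_eq_zero_iff]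
  have hQ := defPoly_ne_zero hA
  have hdet : (coefMatrix fun k : Fin l => θ k.castSucc).det ≠ 0 := by
    rw [det_M0 hg]
    exact mul_ne_zero (pow_ne_zero _ (by simp)) (mul_ne_zero hα0 hQ)
  have hz : (fun k : Fin l => g (Fin.last l) * f k.castSucc - f (Fin.last l) * g k.castSucc) = 0 := by
    apply Matrix.eq_zero_of_vecMul_eq_zero hdet
    funext j
    have h1 := congrArg (fun D : Derivation K (MvPolynomial (Fin l) K)
      (MvPolynomial (Fin l) K) => D (X j)) hf
    simp only [sum_der_apply, Derivation.zero_apply] at h1
    rw [Fin.sum_univ_castSucc] at h1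
    have h2 := rel_last hA hg j
    simp only [Matrix.vecMul, dotProduct, Pi.zero_apply, coefMatrix, Matrix.of_apply, sub_mul,
      Finset.sum_sub_distrib]
    simp only [neg_mul, Finset.sum_neg_distrib] at h2
    have h3 : ∑ k : Fin l, g (Fin.last l) * f k.castSucc * θ k.castSucc (X j) =
        g (Fin.last l) * ∑ k : Fin l, f k.castSucc * θ k.castSucc (X j) := by
      rw [Finset.mul_sum]
      exact Finset.sum_congr rfl fun k _ => by ring
    have h4 : ∑ k : Fin l, f (Fin.last l) * g k.castSucc * θ k.castSucc (X j) =
        f (Fin.last l) * ∑ k : Fin l, g k.castSucc * θ k.castSucc (X j) := by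
      rw [Finset.mul_sum]
      exact Finset.sum_congr rfl fun k _ => by ring
    rw [h3, h4]
    linear_combination g (Fin.last l) * h1 - f (Fin.last l) * h2
  have hz' : ∀ k : Fin l, g (Fin.last l) * f k.castSucc = f (Fin.last l) * g k.castSucc :=
    fun k => sub_eq_zero.1 (congrFun hz k)
  obtain ⟨p, hp⟩ := Function.ne_iff.1 ha0
  have hp' : a p ≠ 0 := hp
  obtain ⟨i0, hi0⟩ := common_prime hII ha hp' (lin a) (lin_prime ha0)
  have hi0' : ¬ lin a ∣ g i0.castSucc := by
    intro h
    apply hi0
    rw [(lin_dvd_iff hp' _).1 h]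
    exact dvd_zero _
  have hdvd : lin a ∣ f (Fin.last l) := by
    have h1 : lin a ∣ f (Fin.last l) * g i0.castSucc := by
      rw [← hz' i0, ha]
      exact dvd_mul_right _ _
    exact ((lin_prime ha0).dvd_or_dvd h1).resolve_right hi0'
  obtain ⟨s, hs⟩ := hdvd
  refine ⟨s, fun i => ?_⟩
  refine Fin.lastCases ?_ (fun k => ?_) i
  · rw [hs, ha, mul_comm]
  · apply mul_left_cancel₀ hα0
    rw [hz' k, hs, ha]
    ring

end forward

/-- For every field, every dimension, every central arrangement and every family of `l + 1`
homogeneous logarithmic derivations the statements (i) and (ii) are equivalent. -/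
theorem result {K : Type*} [Field K] {l n : ℕ} (A : Fin n → Fin l → K) (hA : IsArrangement A)
    (θ : Fin (l + 1) → Derivation K (MvPolynomial (Fin l) K) (MvPolynomial (Fin l) K))
    (hθ : ∀ i, θ i ∈ logDer A) (hhom : ∀ i, ∃ d, IsHomogDer (θ i) d)
    (g : Fin (l + 1) → MvPolynomial (Fin l) K) (hg : AreQuotients A θ g) :
    StatementI A θ g ↔ StatementII g := by
  choose d hd using hhom
  have hQ := defPoly_ne_zero hA
  constructor
  · rintro ⟨-, hspan, hmin, hrel, -, hα1, hα0⟩
    refine ⟨⟨hα1, hα0⟩, fun i => ?_, ?_⟩
    · by_cases h0 : g i.castSucc = 0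
      · exact ⟨1, one_pos, h0 ▸ isHomogeneous_zero _ _ _⟩
      have h1 := (quotient_homog hA hd hg hα1 hα0 i.castSucc).1
      refine ⟨_, ?_, h1⟩
      rw [Nat.pos_iff_ne_zero]
      intro hz
      rw [hz] at h1
      have h2 : (g i.castSucc).totalDegree = 0 := (totalDegree_zero_iff_isHomogeneous _).2 h1
      rw [totalDegree_eq_zero_iff_eq_C] at h2
      apply hmin i.castSucc
      apply mem_span_others hrel.1
      rw [h2]
      apply IsUnit.map
      rw [isUnit_iff_ne_zero]
      intro h3
      rw [h3, C_0] at h2
      exact h0 h2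
    · rintro ⟨h, hpos, hh⟩
      obtain ⟨a, ha⟩ := linear_eq_lin hα1
      have ha0 : a ≠ 0 := by
        rintro rfl
        apply hα0
        rw [ha, lin_eq_zero_iff]
      have hprime := lin_prime ha0
      simp only [Ideal.mem_span_pair] at hh
      choose u v huv using hh
      by_cases hcase : lin a ∣ h
      · apply hprime.not_isUnit
        apply hrel.2
        intro i
        refine Fin.lastCases ?_ (fun k => ?_) i
        · rw [ha]
        · rw [← huv k, ha]
          exact dvd_add (dvd_mul_of_dvd_right hcase _) (dvd_mul_left _ _)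
      · -- `h ψ = - α χ`
        have hψ : ∀ F, h * (∑ k : Fin l, u k • θ k.castSucc) F =
            -(lin a * ((∑ k : Fin l, v k • θ k.castSucc) + θ (Fin.last l)) F) := by
          intro F
          have h1 := congrArg (fun D : Derivation K (MvPolynomial (Fin l) K)
            (MvPolynomial (Fin l) K) => D F) hrel.1
          simp only [sum_der_apply, Derivation.zero_apply] at h1
          rw [Fin.sum_univ_castSucc] at h1
          rw [Derivation.add_apply, sum_der_apply, sum_der_apply]
          have h2 : ∑ k : Fin l, g k.castSucc * θ k.castSucc F =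
              h * ∑ k : Fin l, u k * θ k.castSucc F + lin a * ∑ k : Fin l, v k * θ k.castSucc F := by
            rw [Finset.mul_sum, Finset.mul_sum, ← Finset.sum_add_distrib]
            apply Finset.sum_congr rfl
            intro k _
            rw [← huv k, ha]
            ring
          rw [h2, ha] at h1
          linear_combination h1
        have hdvd : ∀ j, lin a ∣ (∑ k : Fin l, u k • θ k.castSucc) (X j) := by
          intro j
          have h1 : lin a ∣ h * (∑ k : Fin l, u k • θ k.castSucc) (X j) := by
            rw [hψ]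
            exact (dvd_mul_right _ _).neg_right
          exact (hprime.dvd_or_dvd h1).resolve_left hcase
        choose w hw using hdvd
        let ψ' : Derivation K (MvPolynomial (Fin l) K) (MvPolynomial (Fin l) K) :=
          mkDerivation K w
        have hψ' : (∑ k : Fin l, u k • θ k.castSucc) = lin a • ψ' := by
          apply der_ext'
          intro j
          rw [Derivation.smul_apply, smul_eq_mul, mkDerivation_X, hw]
        have hχ : (∑ k : Fin l, v k • θ k.castSucc) + θ (Fin.last l) = -(h • ψ') := by
          apply der_ext'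
          intro j
          have h1 := hψ (X j)
          rw [hψ', Derivation.smul_apply, smul_eq_mul] at h1
          rw [Derivation.neg_apply, Derivation.smul_apply, smul_eq_mul]
          apply mul_left_cancel₀ hprime.ne_zero
          linear_combination h1
        have hmem : ψ' ∈ logDer A := by
          intro i
          have h1 : lin (A i) ∣ lin a * ψ' (lin (A i)) := by
            have h2 : (∑ k : Fin l, u k • θ k.castSucc) ∈ logDer A :=
              Submodule.sum_mem _ fun k _ => Submodule.smul_mem _ _ (hθ _)
            rw [hψ'] at h2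
            exact h2 i
          have h3 : lin (A i) ∣ h * ψ' (lin (A i)) := by
            have h4 : (∑ k : Fin l, v k • θ k.castSucc) + θ (Fin.last l) ∈ logDer A :=
              Submodule.add_mem _ (Submodule.sum_mem _ fun k _ =>
                Submodule.smul_mem _ _ (hθ _)) (hθ _)
            rw [hχ] at h4
            have h5 := h4 i
            rw [Derivation.neg_apply, Derivation.smul_apply, smul_eq_mul, dvd_neg] at h5
            exact h5
          have hpi := lin_prime (hA.1 i)
          rcases hpi.dvd_or_dvd h1 with h6 | h6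
          · rcases hpi.dvd_or_dvd h3 with h7 | h7
            · exfalso
              apply hcase
              obtain ⟨c, hc⟩ := (lin_dvd_lin_iff (hA.1 i)).1 h6
              have hc0 : c ≠ 0 := by
                rintro rfl
                rw [zero_smul] at hc
                exact ha0 hc
              have h8 : lin a ∣ lin (A i) := by
                rw [lin_dvd_lin_iff ha0]
                refine ⟨c⁻¹, ?_⟩
                rw [hc, smul_smul, inv_mul_cancel₀ hc0, one_smul]
              exact h8.trans h7
            · exact h7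
          · exact h6
        rw [← hspan, Submodule.mem_span_range_iff_exists_fun] at hmem
        obtain ⟨b, hb⟩ := hmem
        -- the resulting relation has last coefficient `1 + h b`
        have hrel2 : ∑ i, (Fin.snoc (α := fun _ => MvPolynomial (Fin l) K)
            (fun k : Fin l => v k + h * b k.castSucc) (1 + h * b (Fin.last l)) :
            Fin (l + 1) → MvPolynomial (Fin l) K) i • θ i = 0 := by
          rw [Fin.sum_univ_castSucc]
          simp only [Fin.snoc_castSucc, Fin.snoc_last]
          rw [← hb, Fin.sum_univ_castSucc] at hχ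
          apply der_ext'
          intro j
          have h1 := congrArg (fun D : Derivation K (MvPolynomial (Fin l) K)
            (MvPolynomial (Fin l) K) => D (X j)) hχ
          simp only [Derivation.add_apply, Derivation.neg_apply, Derivation.smul_apply,
            sum_der_apply, smul_eq_mul] at h1
          simp only [Derivation.add_apply, Derivation.zero_apply, Derivation.smul_apply,
            sum_der_apply, smul_eq_mul, add_mul, Finset.sum_add_distrib]
          have h2 : ∑ k : Fin l, h * b k.castSucc * θ k.castSucc (X j) =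
              h * ∑ k : Fin l, b k.castSucc * θ k.castSucc (X j) := by
            rw [Finset.mul_sum]
            exact Finset.sum_congr rfl fun k _ => by ring
          rw [h2]
          linear_combination h1
        have hgr := graded_relation hd hrel2 (d (Fin.last l))
        apply hmin (Fin.last l)
        apply mem_span_others hgr
        rw [if_pos le_rfl, Fin.snoc_last, Nat.sub_self, homogeneousComponent_zero]
        have hcc : coeff 0 (1 + h * b (Fin.last l)) = 1 := by
          rw [← constantCoeff_eq, map_add, map_mul, hpos.constantCoeff]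
          simp
        rw [hcc, C_1]
        exact isUnit_one
  · intro hII
    have hrels := relations_of_II hA hg hII
    have hspan : Submodule.span (MvPolynomial (Fin l) K) (Set.range θ) = logDer A := by
      apply le_antisymm
      · rw [Submodule.span_le]
        rintro _ ⟨i, rfl⟩
        exact hθ i
      · intro η hη
        exact span_of_II hA hθ hg hII η hη
    obtain ⟨⟨hα1, hα0⟩, hpos, hno⟩ := id hII
    have hposall : ∀ i, InPos (g i) := by
      intro i
      refine Fin.lastCases ?_ (fun k => ?_) i
      · exact ⟨1, one_pos, hα1⟩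
      · exact hpos k
    obtain ⟨a, ha⟩ := linear_eq_lin hα1
    have ha0 : a ≠ 0 := by
      rintro rfl
      apply hα0
      rw [ha, lin_eq_zero_iff]
    have hprime := lin_prime ha0
    have hmdr : IsMinimalDegreeRelation θ g := by
      refine ⟨relation hA hg, fun h hh => ?_⟩
      have h1 := hh (Fin.last l)
      rw [ha] at h1
      obtain ⟨t, ht⟩ := h1
      rcases hprime.irreducible.isUnit_or_isUnit ht with h2 | h2
      · exact h2
      · exfalso
        apply hno
        refine ⟨lin a, ⟨1, one_pos, lin_isHomogeneous a⟩, fun k => ?_⟩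
        have h3 : lin a ∣ h := by
          rw [ht]
          exact (h2.mul_right_dvd).2 dvd_rfl
        exact Ideal.mem_of_dvd _ (h3.trans (hh k.castSucc)) (Ideal.subset_span (by simp))
    refine ⟨⟨fun k => d k.castSucc, d (Fin.last l), fun k => θ k.castSucc, θ (Fin.last l),
      fun k => g k.castSucc, g (Fin.last l), ?_, hα0⟩, hspan, ?_, hmdr, ?_, hα1, hα0⟩
    · refine ⟨fun k => hd _, hd _, ?_, fun k => quotient_homog hA hd hg hα1 hα0 _, hα1,
        fun k => (hpos k).constantCoeff, fun h => hα0 h.1, ?_⟩
      · rw [← hspan]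
        congr 1
        ext x
        constructor
        · rintro (rfl | ⟨k, rfl⟩)
          · exact ⟨_, rfl⟩
          · exact ⟨_, rfl⟩
        · rintro ⟨i, rfl⟩
          refine Fin.lastCases ?_ (fun k => ?_) i
          · exact Or.inl rfl
          · exact Or.inr ⟨k, rfl⟩
      · intro c c'
        constructor
        · intro h
          obtain ⟨s, hs⟩ := hrels (Fin.snoc (α := fun _ => MvPolynomial (Fin l) K) c c') (by
            rw [Fin.sum_univ_castSucc]
            simp only [Fin.snoc_castSucc, Fin.snoc_last]
            exact h)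
          refine ⟨s, fun i => ?_, ?_⟩
          · have := hs i.castSucc
            rwa [Fin.snoc_castSucc] at this
          · have := hs (Fin.last l)
            rwa [Fin.snoc_last] at this
        · rintro ⟨s, hs, hs'⟩
          have h1 := hmdr.1
          rw [Fin.sum_univ_castSucc] at h1
          have h2 := congrArg (fun D => s • D) h1
          simp only [smul_add, Finset.smul_sum, smul_smul, smul_zero] at h2
          simp only [hs, hs']
          exact h2
    · intro i hi
      obtain ⟨b, hb, hbi⟩ := exists_of_mem_span_others hi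
      obtain ⟨s, hs⟩ := hrels b hb
      have h1 := congrArg constantCoeff (hs i)
      rw [hbi, map_mul, (hposall i).constantCoeff, mul_zero] at h1
      simp at h1
    · intro f hf
      obtain ⟨s, hs⟩ := hrels f hf.1
      have hu : IsUnit s := hf.2 s fun i => ⟨g i, hs i⟩
      rw [MvPolynomial.isUnit_iff_eq_C_of_isReduced] at hu
      obtain ⟨c, hc, rfl⟩ := hu
      exact ⟨c, hc.ne_zero, hs⟩

end Pool.Agent.Results.MP_eea557_ag.Recognition
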